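import Mathlib

set_option autoImplicit false

namespace Pool.Agent.H.MP_a13136_an

noncomputable def G (a b : ℝ) : ℝ :=
  (112219/1000000)*a^12 + (-17237/500000)*a^11*b + (-108043/125000)*a^10*b^2 + (31731/200000)*a^9*b^3 + (879397/200000)*a^8*b^4 + (273/3125)*a^7*b^5 + (-1007567/125000)*a^6*b^6 + (-32629/100000)*a^5*b^7 + (3105729/500000)*a^4*b^8 + (-451443/1000000)*a^3*b^9 + (-838023/500000)*a^2*b^10 + (108727/1000000)*a*b^11 + (45319/100000)*b^12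

noncomputable def L0 (a b c : ℝ) : ℝ :=
  33477*a^6 - 5149*a^5*b - 157972*a^4*b^2 + 16523*a^4*b*c - 20749*a^4*c^2 + 2126*a^3*b^3 - 3150*a^3*b^2*c - 5358*a^3*b*c^2 - 7225*a^3*c^3 + 158717*a^2*b^4 - 9152*a^2*b^3*c + 44656*a^2*b^2*c^2 - 12028*a^2*b*c^3 - 8424*a^2*c^4 + 134*a*b^5 + 16302*a*b^4*c - 14597*a*b^3*c^2 - 31022*a*b^2*c^3 + 8987*a*b*c^4 + 10601*a*c^5 - 29378*b^6 - 14655*b^5*c - 4279*b^4*c^2 + 37788*b^3*c^3 + 2887*b^2*c^4 - 20540*b*c^5 - 1079*c^6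

noncomputable def L1 (a b c : ℝ) : ℝ :=
  43653*a^5*b - 12671*a^5*c - 2091*a^4*b^2 - 9095*a^4*b*c - 495*a^4*c^2 - 54152*a^3*b^3 + 36914*a^3*b^2*c - 30629*a^3*b*c^2 + 11868*a^3*c^3 + 16127*a^2*b^4 - 5986*a^2*b^3*c - 10170*a^2*b^2*c^2 + 15948*a^2*b*c^3 + 5534*a^2*c^4 - 2282*a*b^5 - 17578*a*b^4*c + 44852*a*b^3*c^2 - 15850*a*b^2*c^3 - 8193*a*b*c^4 + 2852*a*c^5 - 1684*b^6 + 41869*b^5*c - 9279*b^4*c^2 - 95335*b^3*c^3 + 18501*b^2*c^4 + 45268*b*c^5 - 5408*c^6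

noncomputable def L2 (a b c : ℝ) : ℝ :=
  35032*a^5*c + 16016*a^4*b^2 - 602*a^4*b*c + 6725*a^4*c^2 + 13238*a^3*b^3 + 6693*a^3*b^2*c + 13997*a^3*b*c^2 - 61009*a^3*c^3 - 34066*a^2*b^4 - 25725*a^2*b^3*c + 13140*a^2*b^2*c^2 + 31136*a^2*b*c^3 - 11858*a^2*c^4 - 8296*a*b^5 - 15432*a*b^4*c - 4909*a*b^3*c^2 + 11680*a*b^2*c^3 - 4401*a*b*c^4 + 21598*a*c^5 + 12571*b^6 - 9387*b^5*c - 28113*b^4*c^2 + 38284*b^3*c^3 + 15951*b^2*c^4 - 24926*b*c^5 + 1151*c^6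

noncomputable def L3 (a b c : ℝ) : ℝ :=
  113469*a^4*b^2 + 1142*a^4*b*c - 57035*a^4*c^2 + 4901*a^3*b^3 + 7489*a^3*b^2*c + 10305*a^3*b*c^2 - 4762*a^3*c^3 - 152439*a^2*b^4 + 12003*a^2*b^3*c + 11115*a^2*b^2*c^2 - 13654*a^2*b*c^3 + 51351*a^2*c^4 + 5913*a*b^5 - 17113*a*b^4*c + 12012*a*b^3*c^2 + 26634*a*b^2*c^3 - 19032*a*b*c^4 - 4385*a*c^5 + 25710*b^6 - 9496*b^5*c + 25773*b^4*c^2 + 7587*b^3*c^3 - 31297*b^2*c^4 + 3506*b*c^5 - 2641*c^6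

noncomputable def L4 (a b c : ℝ) : ℝ :=
  76857*a^4*b*c - 8113*a^4*c^2 - 10883*a^3*b^3 + 1577*a^3*b^2*c + 12679*a^3*b*c^2 - 3281*a^3*c^3 - 6552*a^2*b^4 - 54057*a^2*b^3*c + 27437*a^2*b^2*c^2 - 51773*a^2*b*c^3 + 5036*a^2*c^4 + 15333*a*b^5 - 10130*a*b^4*c - 32161*a*b^3*c^2 + 17122*a*b^2*c^3 + 15142*a*b*c^4 - 765*a*c^5 + 1760*b^6 - 55352*b^5*c - 1648*b^4*c^2 + 136727*b^3*c^3 - 12926*b^2*c^4 - 55106*b*c^5 + 1825*c^6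

noncomputable def L5 (a b c : ℝ) : ℝ :=
  36648*a^4*c^2 + 1791*a^3*b^3 - 19861*a^3*b^2*c - 15177*a^3*b*c^2 + 29979*a^3*c^3 + 5412*a^2*b^4 + 19461*a^2*b^3*c - 6660*a^2*b^2*c^2 - 7745*a^2*b*c^3 - 40442*a^2*c^4 - 1297*a*b^5 - 17586*a*b^4*c - 20713*a*b^3*c^2 + 31975*a*b^2*c^3 + 32203*a*b*c^4 - 24339*a*c^5 - 6137*b^6 + 17098*b^5*c + 7715*b^4*c^2 - 52118*b^3*c^3 - 331*b^2*c^4 + 26354*b*c^5 + 9083*c^6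

noncomputable def L6 (a b c : ℝ) : ℝ :=
  64819*a^3*b^3 - 10649*a^3*b^2*c - 51466*a^3*b*c^2 + 602*a^3*c^3 - 8916*a^2*b^4 + 29481*a^2*b^3*c + 15149*a^2*b^2*c^2 - 24123*a^2*b*c^3 - 3902*a^2*c^4 - 50485*a*b^5 + 337*a*b^4*c + 17746*a*b^3*c^2 + 7790*a*b^2*c^3 + 17051*a*b*c^4 - 1734*a*c^5 - 7428*b^6 - 35706*b^5*c + 24852*b^4*c^2 + 63327*b^3*c^3 - 23680*b^2*c^4 - 25214*b*c^5 + 3483*c^6

noncomputable def L7 (a b c : ℝ) : ℝ :=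
  82725*a^3*b^2*c - 33914*a^3*b*c^2 - 42932*a^3*c^3 - 1337*a^2*b^4 + 11754*a^2*b^3*c + 35851*a^2*b^2*c^2 - 10439*a^2*b*c^3 - 20061*a^2*c^4 + 5159*a*b^5 - 56131*a*b^4*c - 4533*a*b^3*c^2 - 19781*a*b^2*c^3 + 30365*a*b*c^4 + 30002*a*c^5 - 3458*b^6 - 21602*b^5*c + 7124*b^4*c^2 + 28477*b^3*c^3 - 13951*b^2*c^4 - 8570*b*c^5 + 7295*c^6

noncomputable def L8 (a b c : ℝ) : ℝ :=
  29793*a^3*b*c^2 - 22215*a^3*c^3 + 8977*a^2*b^4 + 14411*a^2*b^3*c + 5253*a^2*b^2*c^2 + 1074*a^2*b*c^3 - 18610*a^2*c^4 - 2456*a*b^5 - 9252*a*b^4*c - 24429*a*b^3*c^2 + 17847*a*b^2*c^3 - 3644*a*b*c^4 + 14177*a*c^5 - 5917*b^6 + 35189*b^5*c - 3712*b^4*c^2 - 101793*b^3*c^3 + 5140*b^2*c^4 + 53304*b*c^5 + 8800*c^6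

noncomputable def L9 (a b c : ℝ) : ℝ :=
  12820*a^3*c^3 - 22353*a^2*b^4 + 17039*a^2*b^3*c + 28068*a^2*b^2*c^2 - 27938*a^2*b*c^3 - 3580*a^2*c^4 + 11833*a*b^5 + 11748*a*b^4*c + 3901*a*b^3*c^2 - 2517*a*b^2*c^3 - 9234*a*b*c^4 - 11360*a*c^5 + 11157*b^6 - 21524*b^5*c - 29992*b^4*c^2 - 3243*b^3*c^3 + 7121*b^2*c^4 + 24838*b*c^5 + 4933*c^6

noncomputable def L10 (a b c : ℝ) : ℝ :=
  52925*a^2*b^4 + 3194*a^2*b^3*c - 62762*a^2*b^2*c^2 - 3559*a^2*b*c^3 + 15069*a^2*c^4 - 27996*a*b^5 + 22680*a*b^4*c + 51323*a*b^3*c^2 - 30604*a*b^2*c^3 - 21355*a*b*c^4 + 7499*a*c^5 - 26009*b^6 - 30743*b^5*c + 7691*b^4*c^2 + 50014*b^3*c^3 + 19087*b^2*c^4 - 17893*b*c^5 - 7529*c^6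

noncomputable def L11 (a b c : ℝ) : ℝ :=
  77984*a^2*b^3*c - 25696*a^2*b^2*c^2 - 55312*a^2*b*c^3 + 16952*a^2*c^4 - 6440*a*b^5 - 41986*a*b^4*c + 35122*a*b^3*c^2 + 25857*a*b^2*c^3 - 21502*a*b*c^4 + 4801*a*c^5 + 7230*b^6 - 844*b^5*c - 17481*b^4*c^2 - 64190*b^3*c^3 + 30397*b^2*c^4 + 49142*b*c^5 - 12763*c^6

noncomputable def L12 (a b c : ℝ) : ℝ :=
  48309*a^2*b^2*c^2 - 19714*a^2*b*c^3 - 20118*a^2*c^4 - 7185*a*b^5 - 18216*a*b^4*c - 7199*a*b^3*c^2 + 43201*a*b^2*c^3 - 126*a*b*c^4 - 12875*a*c^5 + 7409*b^6 + 26032*b^5*c - 35782*b^4*c^2 - 43604*b^3*c^3 + 4705*b^2*c^4 + 28687*b*c^5 + 7312*c^6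

noncomputable def L13 (a b c : ℝ) : ℝ :=
  17490*a^2*b*c^3 - 18649*a^2*c^4 - 6641*a*b^5 + 3067*a*b^4*c + 23662*a*b^3*c^2 - 6489*a*b^2*c^3 - 1907*a*b*c^4 - 8957*a*c^5 + 6255*b^6 - 28282*b^5*c - 18935*b^4*c^2 + 56691*b^3*c^3 + 6291*b^2*c^4 - 34243*b*c^5 + 11029*c^6

noncomputable def L14 (a b c : ℝ) : ℝ :=
  6667*a^2*c^4 + 6025*a*b^5 + 9226*a*b^4*c - 45653*a*b^3*c^2 - 18992*a*b^2*c^3 + 33318*a*b*c^4 + 9482*a*c^5 - 5254*b^6 + 25229*b^5*c + 45146*b^4*c^2 - 69410*b^3*c^3 - 39731*b^2*c^4 + 41059*b*c^5 + 2954*c^6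

noncomputable def L15 (a b c : ℝ) : ℝ :=
  24379*a*b^5 - 2366*a*b^4*c - 41910*a*b^3*c^2 + 10328*a*b^2*c^3 + 15245*a*b*c^4 - 4200*a*c^5 - 24522*b^6 + 7929*b^5*c + 39454*b^4*c^2 - 23911*b^3*c^3 - 8059*b^2*c^4 + 11385*b*c^5 - 3708*c^6

noncomputable def L16 (a b c : ℝ) : ℝ :=
  27166*a*b^4*c - 24129*a*b^3*c^2 - 19094*a*b^2*c^3 + 16518*a*b*c^4 + 1414*a*c^5 - 3*b^6 - 20179*b^5*c + 27196*b^4*c^2 - 1050*b^3*c^3 - 20815*b^2*c^4 + 11693*b*c^5 + 1194*c^6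

noncomputable def L17 (a b c : ℝ) : ℝ :=
  21938*a*b^3*c^2 - 19391*a*b^2*c^3 - 13022*a*b*c^4 + 12070*a*c^5 - 142*b^6 - 6734*b^5*c - 12510*b^4*c^2 + 36512*b^3*c^3 - 10542*b^2*c^4 - 19863*b*c^5 + 11922*c^6

noncomputable def L18 (a b c : ℝ) : ℝ :=
  10922*a*b^2*c^3 - 8751*a*b*c^4 - 1268*a*c^5 + 38*b^6 - 8475*b^5*c - 604*b^4*c^2 + 11085*b^3*c^3 + 10555*b^2*c^4 - 11838*b*c^5 - 958*c^6

noncomputable def L19 (a b c : ℝ) : ℝ :=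
  8114*a*b*c^4 - 6766*a*c^5 + 202*b^6 + 2883*b^5*c - 4342*b^4*c^2 - 7702*b^3*c^3 + 3551*b^2*c^4 + 11671*b*c^5 - 7104*c^6

noncomputable def L20 (a b c : ℝ) : ℝ :=
  1826*a*c^5 + 338*b^6 + 8811*b^5*c - 1724*b^4*c^2 - 20634*b^3*c^3 + 1727*b^2*c^4 + 7925*b*c^5 + 1944*c^6

noncomputable def L21 (a b c : ℝ) : ℝ :=
  2026*b^6 - 715*b^5*c - 4141*b^4*c^2 + 1828*b^3*c^3 + 2208*b^2*c^4 - 972*b*c^5 - 85*c^6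

noncomputable def L22 (a b c : ℝ) : ℝ :=
  7201*b^5*c - 3615*b^4*c^2 - 14765*b^3*c^3 + 7837*b^2*c^4 + 3964*b*c^5 - 909*c^6

noncomputable def L23 (a b c : ℝ) : ℝ :=
  5071*b^4*c^2 - 1568*b^3*c^3 - 8244*b^2*c^4 + 3547*b*c^5 + 1431*c^6

noncomputable def L24 (a b c : ℝ) : ℝ :=
  3181*b^3*c^3 + 520*b^2*c^4 - 3495*b*c^5 + 536*c^6

noncomputable def L25 (a b c : ℝ) : ℝ :=
  2934*b^2*c^4 - 798*b*c^5 - 1518*c^6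

noncomputable def L26 (a b c : ℝ) : ℝ :=
  2125*b*c^5 - 1736*c^6

noncomputable def L27 (a b c : ℝ) : ℝ :=
  784*c^6

noncomputable def R0 (a b c : ℝ) : ℝ :=
  314507*(a^2*b^2*c^2 - b^3*c^3)^2 + 221015*(a*b*c^4 + b^5*c)^2 + 186141*(a^2*b^3*c + a*c^5)^2 + 171533*(a*b^4*c + a*b^3*c^2)^2 + 167752*(a^2*c^4 + b*c^5)^2 + 158677*(a^4*b^2 + b*c^5)^2 + 148145*(b^3*c^3 - c^6)^2 + 135582*(a*b^4*c - b^4*c^2)^2 + 135441*(a^4*b*c - c^6)^2 + 129072*(b^3*c^3 + b^2*c^4)^2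

lemma R0_nn (a b c : ℝ) : 0 ≤ R0 a b c := by unfold R0; positivity

noncomputable def R1 (a b c : ℝ) : ℝ :=
  123605*(a^3*c^3 - a^2*b^4)^2 + 112790*(a^3*c^3 - b*c^5)^2 + 104932*(a^2*b^3*c - b^6)^2 + 101784*(a^4*b*c - a^3*b^2*c)^2 + 97852*(a^3*c^3 + b^5*c)^2 + 91455*(a^2*b^4 + a*b^2*c^3)^2 + 83640*(a^4*b*c + a*b^5)^2 + 71978*(a*b^3*c^2 - b*c^5)^2 + 61593*(a^4*c^2 + a^3*b*c^2)^2 + 60884*(a^2*b^4 - a*b^3*c^2)^2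

lemma R1_nn (a b c : ℝ) : 0 ≤ R1 a b c := by unfold R1; positivity

noncomputable def R2 (a b c : ℝ) : ℝ :=
  57438*(a^2*c^4 - a*b^4*c)^2 + 55489*(a^3*b^2*c + b^6)^2 + 55449*(a^5*c + a^3*b^3)^2 + 49665*(a*b^4*c - b^6)^2 + 42971*(a*b*c^4 - b^6)^2 + 41962*(a^5*c + a*b^5)^2 + 41566*(a^3*b*c^2 + a^2*b*c^3)^2 + 41247*(a^4*b^2 + a^3*b^3)^2 + 39897*(b^5*c + b^4*c^2)^2 + 39633*(a^3*b^2*c - a*b^5)^2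

lemma R2_nn (a b c : ℝ) : 0 ≤ R2 a b c := by unfold R2; positivity

noncomputable def R3 (a b c : ℝ) : ℝ :=
  39402*(a^2*b^4 + a*b^5)^2 + 35843*(a^5*b - a^2*b^3*c)^2 + 29663*(a*b^3*c^2 + c^6)^2 + 26191*(a^3*b^2*c + a*b^3*c^2)^2 + 25440*(a*b^5 + c^6)^2 + 25327*(a^2*b^2*c^2 - a*c^5)^2 + 25260*(a^4*c^2 - a^2*b^3*c)^2 + 23351*(a^5*b - a*c^5)^2 + 21463*(b^6 - b*c^5)^2 + 17262*(a^3*b^2*c - a^2*b^3*c)^2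

lemma R3_nn (a b c : ℝ) : 0 ≤ R3 a b c := by unfold R3; positivity

noncomputable def R4 (a b c : ℝ) : ℝ :=
  16507*(a^6 - a^3*b^3)^2 + 15970*(a*b*c^4 - c^6)^2 + 15675*(a^3*b^3 - a^2*c^4)^2 + 15207*(b*c^5 + c^6)^2 + 14324*(a*b^3*c^2 - b^6)^2 + 14061*(a^5*c - a^4*b^2)^2 + 13911*(a^4*b*c - a*c^5)^2 + 13308*(a^5*b - a^5*c)^2 + 12081*(a^5*b - a^4*c^2)^2 + 11091*(a*b^2*c^3 - c^6)^2

lemma R4_nn (a b c : ℝ) : 0 ≤ R4 a b c := by unfold R4; positivity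

noncomputable def R5 (a b c : ℝ) : ℝ :=
  8980*(a^5*c + a^4*c^2)^2 + 8937*(a*c^5 + c^6)^2 + 8440*(a^3*b^3 - a^2*b^4)^2 + 6664*(b^6 - b^5*c)^2 + 6149*(a^2*c^4 + a*c^5)^2 + 4245*(a^4*c^2 - a*c^5)^2 + 3366*(a*b^5 - b^6)^2 + 3073*(a^6 + a^5*b)^2 + 2166*(a*b^3*c^2 + a*c^5)^2 + 1897*(a^4*b*c + a^3*b*c^2)^2

lemma R5_nn (a b c : ℝ) : 0 ≤ R5 a b c := by unfold R5; positivity

noncomputable def R6 (a b c : ℝ) : ℝ :=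
  62*(a^4*c^2 - a^3*c^3)^2 + 27*(a^5*c + a^3*b*c^2)^2 + 1460891*(a^6)^2 + 1233022*(a^5*b)^2 + 1299494*(a^5*c)^2 + 1334775*(a^4*b^2)^2 + 1228442*(a^4*b*c)^2 + 1322158*(a^4*c^2)^2 + 1246818*(a^3*b^3)^2 + 1175707*(a^3*b^2*c)^2

lemma R6_nn (a b c : ℝ) : 0 ≤ R6 a b c := by unfold R6; positivity

noncomputable def R7 (a b c : ℝ) : ℝ :=
  1241007*(a^3*b*c^2)^2 + 1183486*(a^3*c^3)^2 + 1178047*(a^2*b^4)^2 + 1191215*(a^2*b^3*c)^2 + 1180236*(a^2*b^2*c^2)^2 + 1230227*(a^2*b*c^3)^2 + 1177133*(a^2*c^4)^2 + 1146465*(a*b^5)^2 + 1159326*(a*b^4*c)^2 + 1170882*(a*b^3*c^2)^2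

lemma R7_nn (a b c : ℝ) : 0 ≤ R7 a b c := by unfold R7; positivity

noncomputable def R8 (a b c : ℝ) : ℝ :=
  1184580*(a*b^2*c^3)^2 + 1162224*(a*b*c^4)^2 + 1173268*(a*c^5)^2 + 1117762*(b^6)^2 + 1127851*(b^5*c)^2 + 1118234*(b^4*c^2)^2 + 1074536*(b^3*c^3)^2 + 1078124*(b^2*c^4)^2 + 1080009*(b*c^5)^2 + 1061152*(c^6)^2

lemma R8_nn (a b c : ℝ) : 0 ≤ R8 a b c := by unfold R8; positivity

noncomputable def Pl (a b c : ℝ) : ℝ :=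
  (109/200)*c^12 + G a b - G b c - (c^7*b^5 - (3/10)*b^7*c^5 - (1/5)*a^7*c^5)

noncomputable def SS (a b c : ℝ) : ℝ :=
  L0 a b c ^ 2 + L1 a b c ^ 2 + L2 a b c ^ 2 + L3 a b c ^ 2 + L4 a b c ^ 2 + L5 a b c ^ 2 + L6 a b c ^ 2 + L7 a b c ^ 2 + L8 a b c ^ 2 + L9 a b c ^ 2 + L10 a b c ^ 2 + L11 a b c ^ 2 + L12 a b c ^ 2 + L13 a b c ^ 2 + L14 a b c ^ 2 + L15 a b c ^ 2 + L16 a b c ^ 2 + L17 a b c ^ 2 + L18 a b c ^ 2 + L19 a b c ^ 2 + L20 a b c ^ 2 + L21 a b c ^ 2 + L22 a b c ^ 2 + L23 a b c ^ 2 + L24 a b c ^ 2 + L25 a b c ^ 2 + L26 a b c ^ 2 + L27 a b c ^ 2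

noncomputable def RR (a b c : ℝ) : ℝ :=
  R0 a b c + R1 a b c + R2 a b c + R3 a b c + R4 a b c + R5 a b c + R6 a b c + R7 a b c + R8 a b c

set_option maxRecDepth 100000 in
lemma ident (a b c : ℝ) : 10000000000 * Pl a b c = SS a b c + RR a b c := by
  unfold Pl SS RR G L0 L1 L2 L3 L4 L5 L6 L7 L8 L9 L10 L11 L12 L13 L14 L15 L16 L17 L18 L19 L20 L21 L22 L23 L24 L25 L26 L27 R0 R1 R2 R3 R4 R5 R6 R7 R8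
  ring

lemma sos (a b c : ℝ) :
    c^7*b^5 - (3/10)*b^7*c^5 - (1/5)*a^7*c^5 ≤ (109/200)*c^12 + G a b - G b c := by
  have h := ident a b c
  have h1 : 0 ≤ SS a b c := by unfold SS; positivity
  have h2 : 0 ≤ RR a b c := by
    unfold RR
    linarith [R0_nn a b c, R1_nn a b c, R2_nn a b c, R3_nn a b c, R4_nn a b c, R5_nn a b c, R6_nn a b c, R7_nn a b c, R8_nn a b c]
  have h3 : 0 ≤ Pl a b c := by linarith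
  unfold Pl at h3
  linarith

lemma G_zero : G 0 0 = 0 := by unfold G; norm_num

end Pool.Agent.H.MP_a13136_an
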