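import Pool.Agent.H.MP_a13136_an.A

set_option autoImplicit false

namespace Pool.Agent.H.MP_a13136_an
open Finset

noncomputable def N (y : ℝ) : ℝ := |y| ^ ((12:ℝ)/7)

lemma ex_rt (y : ℝ) : ∃ s : ℝ, s ^ 7 = y := by
  rcases le_total 0 y with h | h
  · exact ⟨y ^ ((7:ℕ):ℝ)⁻¹, Real.rpow_inv_natCast_pow h (by norm_num)⟩
  · refine ⟨-((-y) ^ ((7:ℕ):ℝ)⁻¹), ?_⟩
    rw [Odd.neg_pow (by decide), Real.rpow_inv_natCast_pow (by linarith) (by norm_num)]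
    ring

lemma N_pow (s : ℝ) : N (s ^ 7) = s ^ 12 := by
  unfold N
  rw [abs_pow, ← Real.rpow_natCast, ← Real.rpow_mul (abs_nonneg s)]
  have : ((7:ℕ):ℝ) * (12/7) = ((12:ℕ):ℝ) := by norm_num
  rw [this, Real.rpow_natCast, ← abs_pow, abs_of_nonneg (by positivity)]

lemma amgm (X Y : ℝ) (hX : 0 ≤ X) (hY : 0 ≤ Y) : 7 * X ^ 6 * Y ≤ 6 * X ^ 7 + Y ^ 7 := by
  have : 6 * X ^ 7 + Y ^ 7 - 7 * X ^ 6 * Y =
      (X - Y) ^ 2 * (6 * X ^ 5 + 5 * X ^ 4 * Y + 4 * X ^ 3 * Y ^ 2 + 3 * X ^ 2 * Y ^ 3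
        + 2 * X * Y ^ 4 + Y ^ 5) := by ring
  have h2 : 0 ≤ (X - Y) ^ 2 * (6 * X ^ 5 + 5 * X ^ 4 * Y + 4 * X ^ 3 * Y ^ 2 + 3 * X ^ 2 * Y ^ 3
        + 2 * X * Y ^ 4 + Y ^ 5) := by positivity
  linarith

lemma pw12 (w t : ℝ) (K : ℝ) (hK : 0 ≤ K) (h : |w| ^ 7 ≤ K ^ 7 * |t| ^ 7) :
    w ^ 12 ≤ K ^ 12 * t ^ 12 := by
  have h1 : |w| ≤ K * |t| := by
    rw [← mul_pow] at h
    exact le_of_pow_le_pow_left₀ (by norm_num) (by positivity) h
  have h2 : |w| ^ 12 ≤ (K * |t|) ^ 12 := pow_le_pow_left₀ (abs_nonneg w) h1 12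
  rw [mul_pow, ← abs_pow, ← abs_pow, abs_of_nonneg (by positivity : 0 ≤ w ^ 12),
    abs_of_nonneg (by positivity : 0 ≤ t ^ 12)] at h2
  exact h2

lemma tang (s t w : ℝ) (h : w ^ 7 = s ^ 7 + t ^ 7) :
    w ^ 12 ≤ s ^ 12 + (12/7) * (t ^ 7 * s ^ 5) + 6 * t ^ 12 := by
  rcases le_total |t| |s| with hts | hts
  · by_cases hs : s = 0
    · subst hs
      have ht : t = 0 := by simpa using hts
      subst ht
      have hw : w = 0 := by simpa using h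
      subst hw
      simp
    · have hs2 : 0 < s ^ 2 := by positivity
      have h1 := amgm (w ^ 2) (s ^ 2) (by positivity) (by positivity)
      have h2 : (w ^ 2) ^ 7 = (s ^ 7 + t ^ 7) ^ 2 := by rw [← h]; ring
      have h3 : t ^ 2 ≤ s ^ 2 := sq_le_sq.mpr hts
      have h4 : t ^ 12 * t ^ 2 ≤ t ^ 12 * s ^ 2 := mul_le_mul_of_nonneg_left h3 (by positivity)
      have h5 : 0 ≤ t ^ 12 * s ^ 2 := by positivity
      rw [h2] at h1
      refine le_of_mul_le_mul_right ?_ hs2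
      nlinarith
  · have h1 : |w| ^ 7 ≤ (10/9) ^ 7 * |t| ^ 7 := by
      have a1 : |s| ^ 7 ≤ |t| ^ 7 := pow_le_pow_left₀ (abs_nonneg s) hts 7
      have a2 : |w| ^ 7 ≤ |s| ^ 7 + |t| ^ 7 := by
        rw [← abs_pow, ← abs_pow, ← abs_pow, h]; exact abs_add_le _ _
      have a3 : 0 ≤ |t| ^ 7 := by positivity
      nlinarith
    have h2 := pw12 w t (10/9) (by norm_num) h1
    have h3 : |t ^ 7 * s ^ 5| ≤ t ^ 12 := by
      rw [abs_mul, abs_pow, abs_pow]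
      have a1 : |s| ^ 5 ≤ |t| ^ 5 := pow_le_pow_left₀ (abs_nonneg s) hts 5
      have a2 : |t| ^ 7 * |s| ^ 5 ≤ |t| ^ 7 * |t| ^ 5 :=
        mul_le_mul_of_nonneg_left a1 (by positivity)
      have a3 : |t| ^ 7 * |t| ^ 5 = t ^ 12 := by
        rw [← pow_add, ← abs_pow]; exact abs_of_nonneg (by positivity : 0 ≤ t ^ 12)
      linarith
    have h4 := (abs_le.mp h3).1
    have h5 : 0 ≤ s ^ 12 := by positivity
    have h6 : 0 ≤ t ^ 12 := by positivity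
    nlinarith

lemma crude (a b d u : ℝ) (h : u ^ 7 = d ^ 7 - (3/10) * b ^ 7 - (1/5) * a ^ 7) :
    u ^ 12 ≤ 3 * (d ^ 12 + b ^ 12 + a ^ 12) := by
  have h0 : |u| ^ 7 ≤ |d| ^ 7 + (3/10) * |b| ^ 7 + (1/5) * |a| ^ 7 := by
    rw [← abs_pow, ← abs_pow, ← abs_pow, ← abs_pow, h]
    have e1 := abs_sub (d ^ 7 - (3/10) * b ^ 7) ((1/5) * a ^ 7)
    have e2 := abs_sub (d ^ 7) ((3/10) * b ^ 7)
    rw [abs_mul, abs_of_pos (by norm_num : (0:ℝ) < 1/5)] at e1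
    rw [abs_mul, abs_of_pos (by norm_num : (0:ℝ) < 3/10)] at e2
    linarith
  have key : ∀ m : ℝ, |d| ≤ |m| → |b| ≤ |m| → |a| ≤ |m| → u ^ 12 ≤ 3 * m ^ 12 := by
    intro m h1 h2 h3
    have a1 := pow_le_pow_left₀ (abs_nonneg _) h1 7
    have a2 := pow_le_pow_left₀ (abs_nonneg _) h2 7
    have a3 := pow_le_pow_left₀ (abs_nonneg _) h3 7
    have a4 : 0 ≤ |m| ^ 7 := by positivity
    have := pw12 u m (16/15) (by norm_num) (by nlinarith)
    have a5 : 0 ≤ m ^ 12 := by positivity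
    nlinarith
  have p1 : 0 ≤ d ^ 12 := by positivity
  have p2 : 0 ≤ b ^ 12 := by positivity
  have p3 : 0 ≤ a ^ 12 := by positivity
  rcases le_total |d| |b| with h1 | h1 <;> rcases le_total |b| |a| with h2 | h2 <;>
    rcases le_total |d| |a| with h3 | h3
  all_goals first
    | (have := key d le_rfl (by linarith) (by linarith); linarith)
    | (have := key b (by linarith) le_rfl (by linarith); linarith)
    | (have := key a (by linarith) (by linarith) le_rfl; linarith)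

noncomputable def ep : ℝ := 1 / 10 ^ 7
noncomputable def RC : ℝ := 1 + (12/7) * ep * (109/200) + 54 / 10 ^ 12
noncomputable def Phi (a b c : ℝ) : ℝ :=
  (1 + (12/7) * ep * (109/200)) * c ^ 12 - (12/7) * ep * (b ^ 5 * c ^ 7) + (12/7) * ep * G a b
    + (18 / 10 ^ 12) * (a ^ 12 + 2 * b ^ 12 + 2 * c ^ 12)

lemma step (a b c d : ℝ) :
    N (c ^ 7 + ep * (d ^ 7 - (3/10) * b ^ 7 - (1/5) * a ^ 7)) ≤
      RC * d ^ 12 + (Phi a b c - Phi b c d) := by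
  obtain ⟨u, hu⟩ := ex_rt (d ^ 7 - (3/10) * b ^ 7 - (1/5) * a ^ 7)
  obtain ⟨w, hw⟩ := ex_rt (c ^ 7 + ep * (d ^ 7 - (3/10) * b ^ 7 - (1/5) * a ^ 7))
  have h1 := tang c (u / 10) w (by rw [hw, ← hu]; unfold ep; ring)
  have h2 := crude a b d u hu
  have h3 := sos a b c
  rw [← hw, N_pow]
  have e1 : (u / 10) ^ 7 * c ^ 5 = ep * ((d ^ 7 - (3/10) * b ^ 7 - (1/5) * a ^ 7) * c ^ 5) := by
    rw [← hu]; unfold ep; ring
  have e2 : (u / 10) ^ 12 = u ^ 12 / 10 ^ 12 := by ring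
  rw [e1, e2] at h1
  unfold RC Phi
  unfold ep at *
  nlinarith

lemma real_bound (Y : ℕ → ℝ) (M : ℕ) (h0 : Y 0 = 0) (h1 : Y 1 = 0) (h2 : Y 2 = 0)
    (hM : ∀ j, M ≤ j → Y j = 0) :
    ∑ n ∈ range M, N (Y (n+2) + ep * (Y (n+3) - (3/10) * Y (n+1) - (1/5) * Y n)) ≤
      RC * ∑ n ∈ range M, N (Y (n+3)) := by
  choose s hs using fun n => ex_rt (Y n)
  have hz : ∀ n, Y n = 0 → s n = 0 := by
    intro n hn
    have := hs n
    rw [hn] at this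
    simpa using this
  have hP : Phi 0 0 0 = 0 := by unfold Phi; rw [G_zero]; norm_num
  have ht := Finset.sum_range_sub' (fun n => Phi (s n) (s (n+1)) (s (n+2))) M
  simp only [zero_add] at ht
  rw [hz 0 h0, hz 1 h1, hz 2 h2, hz M (hM _ le_rfl), hz (M+1) (hM _ (by omega)),
    hz (M+2) (hM _ (by omega)), hP] at ht
  calc _ ≤ ∑ n ∈ range M, (RC * N (Y (n+3)) +
        (Phi (s n) (s (n+1)) (s (n+2)) - Phi (s (n+1)) (s (n+1+1)) (s (n+1+2)))) := by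
        refine Finset.sum_le_sum fun n _ => ?_
        have := step (s n) (s (n+1)) (s (n+2)) (s (n+3))
        rw [hs, hs, hs, hs, ← N_pow (s (n+3)), hs] at this
        exact this
    _ = _ := by rw [Finset.sum_add_distrib, ht, ← Finset.mul_sum]; ring

end Pool.Agent.H.MP_a13136_an
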