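import Pool.Agent.H.MP_a13136_an.B

set_option autoImplicit false

namespace Pool.Agent.H.MP_a13136_an
open Finset

noncomputable def re (θ : ℝ) (z : ℂ) : ℝ := (Complex.exp (θ * Complex.I) * z).re

lemma N_cont : Continuous N := by
  unfold N
  exact continuous_abs.rpow_const (fun _ => Or.inr (by norm_num))

lemma re_cont (z : ℂ) : Continuous fun θ => N (re θ z) := by
  refine N_cont.comp ?_
  unfold re
  fun_prop

noncomputable def KK : ℝ := ∫ θ in (0:ℝ)..(2 * Real.pi), N (Real.cos θ)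

lemma KK_pos : 0 < KK := by
  have h := intervalIntegral.integral_lt_integral_of_continuousOn_of_le_of_exists_lt
    (f := fun _ : ℝ => (0:ℝ)) (g := fun θ => N (Real.cos θ)) (a := 0) (b := 2 * Real.pi)
    (by positivity) continuousOn_const (N_cont.comp Real.continuous_cos).continuousOn
    (fun x _ => by unfold N; positivity)
    ⟨0, ⟨le_rfl, by positivity⟩, by unfold N; simp⟩
  simpa [KK] using h

lemma avg (z : ℂ) :
    ∫ θ in (0:ℝ)..(2 * Real.pi), N (re θ z) = KK * ‖z‖ ^ ((12:ℝ)/7) := by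
  have h1 : ∀ θ : ℝ, N (re θ z) = N (Real.cos (θ + z.arg)) * ‖z‖ ^ ((12:ℝ)/7) := by
    intro θ
    have : re θ z = Real.cos (θ + z.arg) * ‖z‖ := by
      unfold re
      conv_lhs => rw [← Complex.norm_mul_exp_arg_mul_I z]
      rw [mul_left_comm, ← Complex.exp_add, Complex.re_ofReal_mul, mul_comm]
      congr 1
      rw [← Complex.exp_ofReal_mul_I_re]
      congr 2
      push_cast
      ring
    rw [this]
    unfold N
    rw [abs_mul, Real.mul_rpow (abs_nonneg _) (abs_nonneg _), abs_norm]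
  simp_rw [h1]
  rw [intervalIntegral.integral_mul_const,
    intervalIntegral.integral_comp_add_right (fun θ => N (Real.cos θ))]
  congr 1
  have hp : Function.Periodic (fun θ => N (Real.cos θ)) (2 * Real.pi) := by
    intro θ; simp
  have := hp.intervalIntegral_add_eq z.arg 0
  unfold KK
  rw [zero_add, add_comm (2 * Real.pi), this, zero_add]

lemma cx_bound (Y : ℕ → ℂ) (M : ℕ) (h0 : Y 0 = 0) (h1 : Y 1 = 0) (h2 : Y 2 = 0)
    (hM : ∀ j, M ≤ j → Y j = 0) :
    ∑ n ∈ range M, ‖Y (n+2) + (ep : ℂ) * (Y (n+3) - (3/10) * Y (n+1) - (1/5) * Y n)‖ ^ ((12:ℝ)/7)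
      ≤ RC * ∑ n ∈ range M, ‖Y (n+3)‖ ^ ((12:ℝ)/7) := by
  have hz : ∀ θ, re θ 0 = 0 := by intro θ; simp [re]
  have hθ : ∀ θ : ℝ, ∑ n ∈ range M,
      N (re θ (Y (n+2) + (ep : ℂ) * (Y (n+3) - (3/10) * Y (n+1) - (1/5) * Y n))) ≤
      RC * ∑ n ∈ range M, N (re θ (Y (n+3))) := by
    intro θ
    have := real_bound (fun n => re θ (Y n)) M (by simp [h0, hz]) (by simp [h1, hz])
      (by simp [h2, hz]) (fun j hj => by simp [hM j hj, hz])
    refine le_of_eq_of_le (Finset.sum_congr rfl fun n _ => ?_) this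
    congr 1
    unfold re
    generalize Complex.exp (θ * Complex.I) = e
    have e1 : ((3:ℂ)/10) = ((3/10 : ℝ) : ℂ) := by push_cast; rfl
    have e2 : ((1:ℂ)/5) = ((1/5 : ℝ) : ℂ) := by push_cast; rfl
    rw [e1, e2]
    simp only [Complex.mul_re, Complex.add_re, Complex.sub_re, Complex.add_im, Complex.sub_im,
      Complex.mul_im, Complex.ofReal_re, Complex.ofReal_im]
    ring
  have hi := intervalIntegral.integral_mono_on (a := 0) (b := 2 * Real.pi) (μ := MeasureTheory.volume)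
    (by positivity)
    ((continuous_finset_sum _ fun n _ => re_cont _).intervalIntegrable _ _)
    ((continuous_const.mul (continuous_finset_sum _ fun n _ => re_cont _)).intervalIntegrable _ _)
    (fun θ _ => hθ θ)
  simp only [Pi.mul_apply] at hi
  rw [intervalIntegral.integral_const_mul,
    intervalIntegral.integral_finset_sum (fun n _ => (re_cont _).intervalIntegrable _ _),
    intervalIntegral.integral_finset_sum (fun n _ => (re_cont _).intervalIntegrable _ _)] at hi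
  simp_rw [avg] at hi
  rw [← Finset.mul_sum, ← Finset.mul_sum, mul_left_comm] at hi
  exact le_of_mul_le_mul_left hi KK_pos

open Polynomial in
noncomputable def PP : Polynomial ℂ :=
  C (ep : ℂ) + X + C (-(3/10) * (ep : ℂ)) * X ^ 2 + C (-(1/5) * (ep : ℂ)) * X ^ 3

lemma PP_deg : PP.natDegree ≤ 3 := by
  unfold PP
  compute_degree

lemma PP_c0 : PP.coeff 0 = ep := by simp [PP, Polynomial.coeff_X_pow]
lemma PP_c1 : PP.coeff 1 = 1 := by
  unfold PP
  simp only [Polynomial.coeff_add, Polynomial.coeff_C_mul, Polynomial.coeff_X_pow,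
    Polynomial.coeff_C, Polynomial.coeff_X]
  simp
lemma PP_c2 : PP.coeff 2 = -(3/10) * (ep : ℂ) := by
  unfold PP
  simp only [Polynomial.coeff_add, Polynomial.coeff_C_mul, Polynomial.coeff_X_pow,
    Polynomial.coeff_C, Polynomial.coeff_X]
  simp
lemma PP_c3 : PP.coeff 3 = -(1/5) * (ep : ℂ) := by
  unfold PP
  simp only [Polynomial.coeff_add, Polynomial.coeff_C_mul, Polynomial.coeff_X_pow,
    Polynomial.coeff_C, Polynomial.coeff_X]
  simp
lemma PP_c4 (k : ℕ) : PP.coeff (k + 4) = 0 :=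
  Polynomial.coeff_eq_zero_of_natDegree_lt (by have := PP_deg; omega)

noncomputable def sh (y : ℕ → ℂ) (n : ℕ) : ℂ := if n < 3 then 0 else y (n - 3)

lemma conv (y : ℕ → ℂ) (n : ℕ) :
    ∑ k ∈ range (n + 1), PP.coeff k * y (n - k) =
      sh y (n+2) + (ep : ℂ) * (sh y (n+3) - (3/10) * sh y (n+1) - (1/5) * sh y n) := by
  match n with
  | 0 => simp [sh, PP_c0]
  | 1 => simp [sh, PP_c0, PP_c1, Finset.sum_range_succ]; ring
  | 2 => simp [sh, PP_c0, PP_c1, PP_c2, Finset.sum_range_succ]; ring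
  | n + 3 =>
    rw [Finset.sum_range_succ', Finset.sum_range_succ', Finset.sum_range_succ',
      Finset.sum_range_succ']
    rw [Finset.sum_eq_zero (fun k _ => by
      rw [show k + 1 + 1 + 1 + 1 = k + 4 by omega, PP_c4, zero_mul])]
    have s3 : ∀ m, sh y (m + 3) = y m := by intro m; simp [sh]
    rw [show n + 3 + 2 = (n + 2) + 3 by omega, show n + 3 + 1 = (n + 1) + 3 by omega, s3, s3, s3,
      s3]
    simp only [zero_add, show (1 + 1 + 1 : ℕ) = 3 from rfl, show (1 + 1 : ℕ) = 2 from rfl,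
      PP_c0, PP_c1, PP_c2, PP_c3, show n + 3 - 3 = n by omega, show n + 3 - 2 = n + 1 by omega,
      show n + 3 - 1 = n + 2 by omega, Nat.sub_zero]
    ring

lemma upper (N0 : ℕ) (y : ℕ → ℂ) (hy : ∀ j, N0 ≤ j → y j = 0) :
    ∑ n ∈ range (N0 + PP.natDegree + 1),
      ‖∑ k ∈ range (n + 1), PP.coeff k * y (n - k)‖ ^ ((12:ℝ)/7) ≤
      RC * ∑ j ∈ range N0, ‖y j‖ ^ ((12:ℝ)/7) := by
  have h := cx_bound (sh y) (N0 + 4) (by simp [sh]) (by simp [sh]) (by simp [sh])
    (fun j hj => by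
      unfold sh
      rw [if_neg (by omega)]
      exact hy _ (by omega))
  have s3 : ∀ m, sh y (m + 3) = y m := by intro m; simp [sh]
  have e : ∑ n ∈ range (N0 + 4), ‖sh y (n+3)‖ ^ ((12:ℝ)/7) =
      ∑ j ∈ range N0, ‖y j‖ ^ ((12:ℝ)/7) := by
    simp_rw [s3]
    rw [Finset.sum_range_add, Finset.sum_eq_zero (s := range 4), add_zero]
    intro k _
    rw [hy _ (by omega), norm_zero, Real.zero_rpow (by norm_num)]
  rw [e] at h
  refine le_trans ?_ h
  simp_rw [conv]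
  refine Finset.sum_le_sum_of_subset_of_nonneg ?_ (fun _ _ _ => by positivity)
  have := PP_deg
  exact Finset.range_subset_range.mpr (by omega)

lemma tl (τ a : ℝ) (hτ : 0 < τ) (hτp : τ ^ ((12:ℝ)/7) = 1 / 2) (ha : -τ ≤ a) :
    1 / 2 + (6/7) * (a / τ) ≤ |τ + a| ^ ((12:ℝ)/7) := by
  have h1 : -1 ≤ a / τ := by rw [le_div_iff₀ hτ]; linarith
  have h2 := one_add_mul_self_le_rpow_one_add h1 (p := (12:ℝ)/7) (by norm_num)
  have h3 : τ + a = τ * (1 + a / τ) := by field_simp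
  rw [abs_of_nonneg (by linarith), h3, Real.mul_rpow hτ.le (by linarith), hτp]
  linarith

lemma lower :
    RC < ‖(Matrix.mulVec (Polynomial.aeval ((((2:ℝ) ^ (-1 / ((12:ℝ)/7)) : ℝ) : ℂ) •
        !![(1:ℂ), -1; 1, 1]) PP) ![1, 0]) 0‖ ^ ((12:ℝ)/7)
      + ‖(Matrix.mulVec (Polynomial.aeval ((((2:ℝ) ^ (-1 / ((12:ℝ)/7)) : ℝ) : ℂ) •
        !![(1:ℂ), -1; 1, 1]) PP) ![1, 0]) 1‖ ^ ((12:ℝ)/7) := by
  set τ : ℝ := (2:ℝ) ^ (-1 / ((12:ℝ)/7)) with hτd
  have hτ : 0 < τ := by positivity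
  have hτp : τ ^ ((12:ℝ)/7) = 1 / 2 := by
    rw [hτd, ← Real.rpow_mul (by norm_num)]
    norm_num [Real.rpow_neg_one]
  have h12 : τ ^ 12 = 1 / 128 := by
    have : τ ^ 12 = (τ ^ ((12:ℝ)/7)) ^ 7 := by
      rw [← Real.rpow_natCast, ← Real.rpow_natCast, ← Real.rpow_mul hτ.le]; norm_num
    rw [this, hτp]; norm_num
  have hu : τ < 668/1000 := by
    refine lt_of_pow_lt_pow_left₀ 12 (by norm_num) ?_
    rw [h12]; norm_num
  have hl : 1/2 < τ := by
    refine lt_of_pow_lt_pow_left₀ 12 hτ.le ?_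
    rw [h12]; norm_num
  have e0 : (Matrix.mulVec (Polynomial.aeval ((τ : ℂ) • !![(1:ℂ), -1; 1, 1]) PP) ![1, 0]) 0
      = ((τ + ep * (1 + (2/5) * τ ^ 3) : ℝ) : ℂ) := by
    simp [PP, Matrix.mulVec, dotProduct, Fin.sum_univ_two, pow_succ, Matrix.mul_apply,
      Algebra.algebraMap_eq_smul_one]
    ring
  have e1 : (Matrix.mulVec (Polynomial.aeval ((τ : ℂ) • !![(1:ℂ), -1; 1, 1]) PP) ![1, 0]) 1
      = ((τ + ep * (-(3/5) * τ ^ 2 - (2/5) * τ ^ 3) : ℝ) : ℂ) := by
    simp [PP, Matrix.mulVec, dotProduct, Fin.sum_univ_two, pow_succ, Matrix.mul_apply,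
      Algebra.algebraMap_eq_smul_one]
    ring
  rw [e0, e1, Complex.norm_real, Complex.norm_real, Real.norm_eq_abs, Real.norm_eq_abs]
  have t2 : τ ^ 2 < 1 := by nlinarith
  have t3 : τ ^ 3 < 1 := by nlinarith
  have t3' : 0 < τ ^ 3 := by positivity
  have a0 := tl τ (ep * (1 + (2/5) * τ ^ 3)) hτ hτp (by unfold ep; nlinarith)
  have a1 := tl τ (ep * (-(3/5) * τ ^ 2 - (2/5) * τ ^ 3)) hτ hτp (by unfold ep; nlinarith)
  have s : ep * (1 + (2/5) * τ ^ 3) / τ + ep * (-(3/5) * τ ^ 2 - (2/5) * τ ^ 3) / τ =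
      ep * (1 / τ - (3/5) * τ) := by field_simp; ring
  have b : 1000 / 668 < 1 / τ := by
    rw [lt_div_iff₀ hτ]; linarith
  have : RC < 1 + (6/7) * (ep * (1 / τ - (3/5) * τ)) := by
    unfold RC ep
    nlinarith
  linarith

end Pool.Agent.H.MP_a13136_an
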